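import Pool.Agent.Helper907.AA.Defs

/-!
# Travelling along a sliced link diagram

Link diagrams are the sliced diagrams `Word` of `Pool.Agent.Helper907.AA.Defs`: lists of pieces
(maximum, minimum, crossing) read from top to bottom.  Level `k` is the horizontal line below the
first `k` pieces.  A traveller walks along a component of the diagram and counts `+1` for every
crossing passed on the over-strand and `-1` for every crossing passed on the under-strand.
-/

set_option autoImplicit false

namespace Pool.Agent.H272Z.Warp

open Pool.Agent.Helper907.AA

/-- A traveller: it stands at level `lev` on the strand number `pos` and walks downwards
(`down = true`) or upwards (`down = false`). -/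
structure State : Type where
  lev : ℕ
  pos : ℕ
  down : Bool

/-- The traveller stands on a strand of the diagram `w`: there are `n` strands at its level, and its
position is one of them. -/
def OnDiagram (w : Word) (s : State) : Prop :=
  s.lev ≤ w.length ∧ ∃ n : ℕ, width (w.take s.lev) 0 = some n ∧ s.pos < n

/-- Exchange of the positions `i` and `i + 1`. -/
def swapAt (i j : ℕ) : ℕ := if j = i then i + 1 else if j = i + 1 then i else j

/-- A traveller enters a piece from above at position `j`.  The value `(true, j')` means that it
leaves the piece below at position `j'`, the value `(false, j')` means that it turns around at a
minimum and leaves the piece above at position `j'`. -/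
def passDown : Piece → ℕ → Bool × ℕ
  | .birth i, j => (true, if j < i then j else j + 2)
  | .death i, j =>
      if j < i then (true, j) else if j = i then (false, i + 1)
      else if j = i + 1 then (false, i) else (true, j - 2)
  | .pos i, j => (true, swapAt i j)
  | .neg i, j => (true, swapAt i j)

/-- A traveller enters a piece from below at position `j`.  The value `(true, j')` means that it
leaves the piece above at position `j'`, the value `(false, j')` means that it turns around at a
maximum and leaves the piece below at position `j'`. -/
def passUp : Piece → ℕ → Bool × ℕ
  | .birth i, j =>
      if j < i then (true, j) else if j = i then (false, i + 1)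
      else if j = i + 1 then (false, i) else (true, j - 2)
  | .death i, j => (true, if j < i then j else j + 2)
  | .pos i, j => (true, swapAt i j)
  | .neg i, j => (true, swapAt i j)

/-- `+1` if a traveller entering the piece from above at position `j` passes a crossing on the
over-strand, `-1` if on the under-strand, `0` if it passes no crossing.  (In `pos i` the over-strand
runs from top right to bottom left, in `neg i` from top left to bottom right.) -/
def weightDown : Piece → ℕ → ℤ
  | .pos i, j => if j = i + 1 then 1 else if j = i then -1 else 0
  | .neg i, j => if j = i then 1 else if j = i + 1 then -1 else 0
  | _, _ => 0

/-- The same for a traveller entering the piece from below at position `j`. -/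
def weightUp : Piece → ℕ → ℤ
  | .pos i, j => if j = i then 1 else if j = i + 1 then -1 else 0
  | .neg i, j => if j = i + 1 then 1 else if j = i then -1 else 0
  | _, _ => 0

/-- The piece which the traveller enters next: the one below its level if it walks downwards, the
one above its level if it walks upwards.  (There always is such a piece if the traveller stands on a
strand of a closed diagram.) -/
def nextPiece (w : Word) (s : State) : Option Piece :=
  if s.down then w[s.lev]? else if s.lev = 0 then none else w[s.lev - 1]?

/-- One step of the traveller along its component: it walks through the next piece. -/
def step (w : Word) (s : State) : State :=
  match nextPiece w s with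
  | none => s
  | some p =>
    if s.down then
      (if (passDown p s.pos).1 then ⟨s.lev + 1, (passDown p s.pos).2, true⟩
        else ⟨s.lev, (passDown p s.pos).2, false⟩)
    else
      (if (passUp p s.pos).1 then ⟨s.lev - 1, (passUp p s.pos).2, false⟩
        else ⟨s.lev, (passUp p s.pos).2, true⟩)

/-- The weight of the next step: `+1` over a crossing, `-1` under a crossing, `0` otherwise. -/
def weight (w : Word) (s : State) : ℤ :=
  match nextPiece w s with
  | none => 0
  | some p => if s.down then weightDown p s.pos else weightUp p s.pos

/-- The running weight `d` after `a` steps of a traveller starting at `s`: the number of crossings
passed on the over-strand minus the number of crossings passed on the under-strand. -/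
def runWeight (w : Word) (s : State) (a : ℕ) : ℤ :=
  ∑ t ∈ Finset.range a, weight w ((step w)^[t] s)

end Pool.Agent.H272Z.Warp
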