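import Pool.Agent.H272Z.Warp.Defs

set_option autoImplicit false

namespace Pool.Agent.H272Z.Warp

open Pool.Agent.Helper907.AA

/-! ### Labels -/

def Compat : Piece → (ℕ → ℤ) → (ℕ → ℤ) → Prop
  | .birth i, g, g' => (∀ j, j < i → g' j = g j) ∧ g' (i + 1) = - g' i ∧ ∀ j, i ≤ j → g' (j + 2) = g j
  | .death i, g, g' => (∀ j, j < i → g' j = g j) ∧ g (i + 1) = - g i ∧ ∀ j, i ≤ j → g' j = g (j + 2)
  | .pos i, g, g' => (∀ j, j ≠ i → j ≠ i + 1 → g' j = g j) ∧ g' i = g (i + 1) + 1 ∧
      g' (i + 1) = g i - 1
  | .neg i, g, g' => (∀ j, j ≠ i → j ≠ i + 1 → g' j = g j) ∧ g' i = g (i + 1) - 1 ∧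
      g' (i + 1) = g i + 1

def Bd (g : ℕ → ℤ) : Prop := ∀ j, -1 ≤ g j ∧ g j ≤ 1

def Lab : (ℕ → ℤ) → Word → Prop
  | g, [] => Bd g
  | g, p :: w => Bd g ∧ ∃ g', Compat p g g' ∧ Lab g' w

theorem Lab.bd {g : ℕ → ℤ} {w : Word} (h : Lab g w) : Bd g := by
  cases w with
  | nil => exact h
  | cons p w => exact h.1

theorem Lab.levels : ∀ (w : Word) (g : ℕ → ℤ), Lab g w →
    ∃ G : ℕ → ℕ → ℤ, G 0 = g ∧ (∀ k, Bd (G k)) ∧
      ∀ k p, w[k]? = some p → Compat p (G k) (G (k + 1))
  | [], g, h => ⟨fun _ => g, rfl, fun _ => h, by simp⟩
  | p :: w, g, ⟨hb, g', hc, hl⟩ => by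
    obtain ⟨G, h0, hB, hC⟩ := Lab.levels w g' hl
    refine ⟨fun k => Nat.casesOn k g G, rfl, ?_, ?_⟩
    · intro k
      cases k with
      | zero => exact hb
      | succ k => exact hB k
    · intro k q hq
      cases k with
      | zero =>
        simp at hq
        subst hq
        show Compat p g (G 0)
        rw [h0]; exact hc
      | succ k =>
        simp at hq
        exact hC k q hq

theorem compat_down {p : Piece} {g g' : ℕ → ℤ} (h : Compat p g g') (j : ℕ) :
    (if (passDown p j).1 then g' (passDown p j).2 else - g (passDown p j).2) =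
      g j + weightDown p j := by
  cases p with
  | birth i =>
    obtain ⟨h1, h2, h3⟩ := h
    by_cases hj : j < i
    · simp [passDown, weightDown, hj, h1 j hj]
    · simp [passDown, weightDown, hj, h3 j (by omega)]
  | death i =>
    obtain ⟨h1, h2, h3⟩ := h
    by_cases hj : j < i
    · simp [passDown, weightDown, hj, h1 j hj]
    · by_cases hi : j = i
      · subst hi; simp [passDown, weightDown, h2]
      · by_cases hi' : j = i + 1
        · subst hi'; simp [passDown, weightDown, h2]
        · have e := h3 (j - 2) (by omega)
          rw [show j - 2 + 2 = j by omega] at e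
          simp [passDown, weightDown, hj, hi, hi', e]
  | pos i =>
    obtain ⟨h1, h2, h3⟩ := h
    by_cases hi : j = i
    · subst hi; simp [passDown, weightDown, swapAt, h3]; ring
    · by_cases hi' : j = i + 1
      · subst hi'; simp [passDown, weightDown, swapAt, h2]
      · simp [passDown, weightDown, swapAt, hi, hi', h1 j hi hi']
  | neg i =>
    obtain ⟨h1, h2, h3⟩ := h
    by_cases hi : j = i
    · subst hi; simp [passDown, weightDown, swapAt, h3]
    · by_cases hi' : j = i + 1
      · subst hi'; simp [passDown, weightDown, swapAt, h2]; ring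
      · simp [passDown, weightDown, swapAt, hi, hi', h1 j hi hi']

theorem compat_up {p : Piece} {g g' : ℕ → ℤ} (h : Compat p g g') (j : ℕ) :
    (if (passUp p j).1 then - g (passUp p j).2 else g' (passUp p j).2) =
      - g' j + weightUp p j := by
  cases p with
  | death i =>
    obtain ⟨h1, h2, h3⟩ := h
    by_cases hj : j < i
    · simp [passUp, weightUp, hj, h1 j hj]
    · simp [passUp, weightUp, hj, h3 j (by omega)]
  | birth i =>
    obtain ⟨h1, h2, h3⟩ := h
    by_cases hj : j < i
    · simp [passUp, weightUp, hj, h1 j hj]
    · by_cases hi : j = i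
      · subst hi; simp [passUp, weightUp, h2]
      · by_cases hi' : j = i + 1
        · subst hi'; simp [passUp, weightUp, h2]
        · have e := h3 (j - 2) (by omega)
          rw [show j - 2 + 2 = j by omega] at e
          simp [passUp, weightUp, hj, hi, hi', e]
  | pos i =>
    obtain ⟨h1, h2, h3⟩ := h
    by_cases hi : j = i
    · subst hi; simp [passUp, weightUp, swapAt, h2]
    · by_cases hi' : j = i + 1
      · subst hi'; simp [passUp, weightUp, swapAt, h3]; ring
      · simp [passUp, weightUp, swapAt, hi, hi', h1 j hi hi']
  | neg i =>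
    obtain ⟨h1, h2, h3⟩ := h
    by_cases hi : j = i
    · subst hi; simp [passUp, weightUp, swapAt, h2]; ring
    · by_cases hi' : j = i + 1
      · subst hi'; simp [passUp, weightUp, swapAt, h3]
      · simp [passUp, weightUp, swapAt, hi, hi', h1 j hi hi']

def ht (G : ℕ → ℕ → ℤ) (s : State) : ℤ := if s.down then G s.lev s.pos else - G s.lev s.pos

theorem ht_step {w : Word} {G : ℕ → ℕ → ℤ}
    (hC : ∀ k p, w[k]? = some p → Compat p (G k) (G (k + 1))) (s : State) :
    ht G (step w s) = ht G s + weight w s := by
  obtain ⟨k, j, d⟩ := s
  unfold step weight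
  cases hp : nextPiece w ⟨k, j, d⟩ with
  | none => simp
  | some p =>
    cases d with
    | true =>
      have hk : w[k]? = some p := by simpa [nextPiece] using hp
      have := compat_down (hC k p hk) j
      by_cases hb : (passDown p j).1 = true
      · simpa [ht, hb] using this
      · simpa [ht, hb] using this
    | false =>
      cases k with
      | zero => simp [nextPiece] at hp
      | succ k =>
        have hk : w[k]? = some p := by simpa [nextPiece] using hp
        have := compat_up (hC k p hk) j
        by_cases hb : (passUp p j).1 = true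
        · simpa [ht, hb] using this
        · simpa [ht, hb] using this

theorem runWeight_eq {w : Word} {G : ℕ → ℕ → ℤ}
    (hC : ∀ k p, w[k]? = some p → Compat p (G k) (G (k + 1))) (s : State) (a : ℕ) :
    runWeight w s a = ht G ((step w)^[a] s) - ht G s := by
  induction a with
  | zero => simp [runWeight]
  | succ a ih =>
    unfold runWeight at *
    rw [Finset.sum_range_succ, ih, Function.iterate_succ_apply', ht_step hC]
    ring

theorem Lab.span {w : Word} {g : ℕ → ℤ} (h : Lab g w) (s : State) (a b : ℕ) :
    runWeight w s a - runWeight w s b ≤ 2 := by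
  obtain ⟨G, -, hB, hC⟩ := Lab.levels w g h
  rw [runWeight_eq hC, runWeight_eq hC]
  have key : ∀ t : State, -1 ≤ ht G t ∧ ht G t ≤ 1 := by
    intro t
    have := hB t.lev t.pos
    unfold ht
    split_ifs <;> omega
  have h1 := key ((step w)^[a] s)
  have h2 := key ((step w)^[b] s)
  omega

/-! ### Orientations -/

def OCompat : Piece → (ℕ → Bool) → (ℕ → Bool) → Prop
  | .birth i, g, g' => (∀ j, j < i → g' j = g j) ∧ g' (i + 1) = !g' i ∧ ∀ j, i ≤ j → g' (j + 2) = g j
  | .death i, g, g' => (∀ j, j < i → g' j = g j) ∧ g (i + 1) = !g i ∧ ∀ j, i ≤ j → g' j = g (j + 2)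
  | .pos i, g, g' => ∀ j, g' j = g (swapAt i j)
  | .neg i, g, g' => ∀ j, g' j = g (swapAt i j)

def Ori : (ℕ → Bool) → Word → Prop
  | _, [] => True
  | d, p :: w => ∃ d', OCompat p d d' ∧ Ori d' w

theorem swapAt_swapAt (i j : ℕ) : swapAt i (swapAt i j) = j := by
  unfold swapAt
  split_ifs <;> omega

theorem swapAt_inj (i : ℕ) {j k : ℕ} (h : swapAt i j = swapAt i k) : j = k := by
  rw [← swapAt_swapAt i j, h, swapAt_swapAt]

theorem exists_vars : ∀ w : Word, ∃ (x : ℕ → ℕ) (b : ℕ → Bool),
    (∀ j k, j ≠ k → x j = x k → b j ≠ b k) ∧
      ∀ v : ℕ → Bool, Ori (fun j => xor (v (x j)) (b j)) w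
  | [] => ⟨id, fun _ => true, fun _ _ h e => absurd e h, fun _ => trivial⟩
  | p :: w => by
    obtain ⟨x, b, hx, hv⟩ := exists_vars w
    have cross : ∀ i, ∃ (x' : ℕ → ℕ) (b' : ℕ → Bool),
        (∀ j k, j ≠ k → x' j = x' k → b' j ≠ b' k) ∧
        ∀ v : ℕ → Bool, ∃ d', (∀ j, d' j = (fun j => xor (v (x' j)) (b' j)) (swapAt i j)) ∧
          Ori d' w := by
      intro i
      refine ⟨fun j => x (swapAt i j), fun j => b (swapAt i j), ?_, ?_⟩
      · intro j k h e
        exact hx _ _ (fun e' => h (swapAt_inj i e')) e
      · intro v
        exact ⟨_, fun j => by simp [swapAt_swapAt], hv v⟩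
    cases p with
    | pos i => exact cross i
    | neg i => exact cross i
    | death i =>
      refine ⟨fun j => if j < i then x j + 1 else if j < i + 2 then 0 else x (j - 2) + 1,
        fun j => if j < i then b j else if j < i + 2 then decide (j = i) else b (j - 2), ?_, ?_⟩
      · intro j k h e
        simp only at e ⊢
        split_ifs at e ⊢ with h1 h2 h3 h4 h5 h6 h7 h8
        all_goals first
          | omega
          | (apply hx _ _ (by omega) (by omega))
          | (intro e'; simp at e'; omega)
      · intro v
        refine ⟨_, ⟨?_, ?_, ?_⟩, hv (fun n => v (n + 1))⟩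
        · intro j hj
          simp [hj]
        · simp
        · intro j hj
          simp [show ¬ j + 2 < i by omega, show ¬ j + 2 < i + 2 by omega]
    | birth i =>
      let up : ℕ → ℕ := fun j => if j < i then j else j + 2
      have up_inj : ∀ j k, j ≠ k → up j ≠ up k := by
        intro j k h; simp only [up]; split_ifs <;> omega
      have up_i : ∀ j, up j ≠ i := by
        intro j; simp only [up]; split_ifs <;> omega
      have up_i' : ∀ j, up j ≠ i + 1 := by
        intro j; simp only [up]; split_ifs <;> omega
      by_cases hxy : x i = x (i + 1)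
      · refine ⟨fun j => x (up j), fun j => b (up j), fun j k h e => hx _ _ (up_inj j k h) e, ?_⟩
        intro v
        refine ⟨_, ⟨?_, ?_, ?_⟩, hv v⟩
        · intro j hj
          simp [up, hj]
        · have := hx i (i + 1) (by omega) hxy
          simp only [← hxy]
          revert this
          cases b i <;> cases b (i + 1) <;> simp
        · intro j hj
          simp [up, show ¬ j < i by omega]
      · let c : Bool := xor (xor (b i) (b (i + 1))) true
        refine ⟨fun j => if x (up j) = x (i + 1) then x i else x (up j),
          fun j => if x (up j) = x (i + 1) then xor (b (up j)) c else b (up j), ?_, ?_⟩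
        · intro j k h e
          simp only at e ⊢
          split_ifs at e ⊢ with h1 h2 h2
          · have := hx _ _ (up_inj j k h) (h1.trans h2.symm)
            revert this
            cases b (up j) <;> cases b (up k) <;> cases c <;> simp
          · have a1 := hx _ _ (up_i' j) h1
            have a2 := hx _ _ (up_i k) e.symm
            revert a1 a2
            simp only [c]
            cases b (up j) <;> cases b (up k) <;> cases b i <;> cases b (i + 1) <;> simp
          · have a1 := hx _ _ (up_i' k) h2
            have a2 := hx _ _ (up_i j) e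
            revert a1 a2
            simp only [c]
            cases b (up j) <;> cases b (up k) <;> cases b i <;> cases b (i + 1) <;> simp
          · exact hx _ _ (up_inj j k h) e
        · intro v
          refine ⟨_, ⟨?_, ?_, ?_⟩, hv (Function.update v (x (i + 1)) (xor (v (x i)) c))⟩
          · intro j hj
            have e : up j = j := by simp [up, hj]
            simp only [e]
            split_ifs with h1
            · rw [h1, Function.update_self]
              cases v (x i) <;> cases c <;> cases b j <;> simp
            · rw [Function.update_of_ne h1]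
          · simp only [Function.update_self, Function.update_of_ne hxy, c]
            cases v (x i) <;> cases b i <;> cases b (i + 1) <;> simp
          · intro j hj
            have e : up j = j + 2 := by simp [up, show ¬ j < i by omega]
            simp only [e]
            split_ifs with h1
            · rw [h1, Function.update_self]
              cases v (x i) <;> cases c <;> cases b (j + 2) <;> simp
            · rw [Function.update_of_ne h1]

theorem exists_ori (w : Word) : ∃ d, Ori d w := by
  obtain ⟨x, b, -, hv⟩ := exists_vars w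
  exact ⟨_, hv fun _ => true⟩

end Pool.Agent.H272Z.Warp
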