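import Pool.Agent.H272Z.Warp.Main

set_option autoImplicit false

namespace Pool.Agent.H272Z.Warp

open Pool.Agent.Helper907.AA
open Pool.Agent.Helper907.AA.Piece (birth death pos neg)

/-! ### Local replacements -/

theorem width_append (x y : Word) (n : ℕ) : width (x ++ y) n = (width x n).bind (width y) := by
  induction x generalizing n with
  | nil => simp [width]
  | cons p x ih =>
    simp only [List.cons_append, width]
    cases p.width n with
    | none => simp
    | some m => simp [ih]

def Sub (l r : Word) : Prop := ∀ n m, width l n = some m → width r n = some m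

theorem Sub.closed {l r : Word} (h : Sub l r) {x y : Word} (hc : Closed (x ++ l ++ y)) :
    Closed (x ++ r ++ y) := by
  unfold Closed at *
  rw [width_append, width_append] at *
  cases hx : width x 0 with
  | none => simp [hx] at hc
  | some n =>
    cases hl : width l n with
    | none => simp [hx, hl] at hc
    | some m => simpa [hx, hl, h n m hl] using hc

def Eqv (l r : Word) : Prop :=
  ∀ x y : Word, Closed (x ++ l ++ y) → Closed (x ++ r ++ y) ∧ Isotopic (x ++ l ++ y) (x ++ r ++ y)

theorem Eqv.refl (l : Word) : Eqv l l := fun _ _ h => ⟨h, Relation.EqvGen.refl _⟩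

theorem Eqv.trans {l m r : Word} (h : Eqv l m) (h' : Eqv m r) : Eqv l r := fun x y hc =>
  ⟨(h' x y (h x y hc).1).1, Relation.EqvGen.trans _ _ _ (h x y hc).2 (h' x y (h x y hc).1).2⟩

theorem Eqv.ctx {l r : Word} (h : Eqv l r) (u v : Word) : Eqv (u ++ l ++ v) (u ++ r ++ v) := by
  intro x y hc
  have := h (x ++ u) (v ++ y) (by simpa [List.append_assoc] using hc)
  simpa [List.append_assoc] using this

theorem Eqv.fwd {l r : Word} (h : LocalMove l r) (hs : Sub l r) : Eqv l r := fun x y hc =>
  ⟨hs.closed hc, Relation.EqvGen.rel _ _ (Step.mk x l r y (Or.inl h) hc (hs.closed hc))⟩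

theorem Eqv.bwd {l r : Word} (h : LocalMove r l) (hs : Sub l r) : Eqv l r := fun x y hc =>
  ⟨hs.closed hc, Relation.EqvGen.symm _ _
    (Relation.EqvGen.rel _ _ (Step.mk x r l y (Or.inl h) (hs.closed hc) hc))⟩

/-- insertion of a cancelling pair next to a crossing -/
theorem eqv_ins (u v q : Word) (hq : LocalMove q []) (hs : Sub (u ++ v) (u ++ q ++ v)) :
    Eqv (u ++ v) (u ++ q ++ v) := by
  intro x y hc
  have hc' := hs.closed hc
  refine ⟨hc', Relation.EqvGen.symm _ _ (Relation.EqvGen.rel _ _ ?_)⟩
  have := Step.mk (x ++ u) q [] (v ++ y) (Or.inl hq) (by simpa [List.append_assoc] using hc')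
    (by simpa [List.append_assoc] using hc)
  simpa [List.append_assoc] using this

theorem eqv_ppn (i : ℕ) : Eqv [pos i] [pos i, pos i, neg i] :=
  eqv_ins [pos i] [] [pos i, neg i] (.second₁ i) (by
    intro n m h
    by_cases hi : i + 2 ≤ n <;> simp_all [width, Piece.width])

theorem eqv_npp (i : ℕ) : Eqv [pos i] [neg i, pos i, pos i] :=
  eqv_ins [] [pos i] [neg i, pos i] (.second₂ i) (by
    intro n m h
    by_cases hi : i + 2 ≤ n <;> simp_all [width, Piece.width])

theorem eqv_nnp (i : ℕ) : Eqv [neg i] [neg i, neg i, pos i] :=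
  eqv_ins [neg i] [] [neg i, pos i] (.second₂ i) (by
    intro n m h
    by_cases hi : i + 2 ≤ n <;> simp_all [width, Piece.width])

theorem eqv_pnn (i : ℕ) : Eqv [neg i] [pos i, neg i, neg i] :=
  eqv_ins [] [neg i] [pos i, neg i] (.second₁ i) (by
    intro n m h
    by_cases hi : i + 2 ≤ n <;> simp_all [width, Piece.width])

theorem eqv_rot_pos (i : ℕ) : Eqv [pos i] [birth (i + 2), neg (i + 1), death i] := by
  have h1 : Eqv [pos i] [pos i, birth (i + 2), death (i + 1)] :=
    eqv_ins [pos i] [] [birth (i + 2), death (i + 1)] (.zigzag₂ (i + 1)) (by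
      intro n m h
      by_cases hi : i + 2 ≤ n
      · have : i + 1 ≤ n := by omega
        simp_all [width, Piece.width]
      · simp_all [width, Piece.width])
  have h2 : Eqv [pos i, birth (i + 2)] [birth (i + 2), pos i] :=
    Eqv.fwd (by simpa [Piece.moved, Piece.index, Piece.ins, Piece.outs] using
      LocalMove.exchange (pos i) (birth (i + 2)) (by simp [Piece.index, Piece.ins])) (by
      intro n m h
      by_cases hi : i + 2 ≤ n
      · have : i ≤ n := by omega
        simp_all [width, Piece.width]
        omega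
      · simp_all [width, Piece.width])
  have h3 : Eqv [pos i, death (i + 1)] [neg (i + 1), death i] :=
    Eqv.bwd (.slideDeath₂ i) (by
      intro n m h
      by_cases hi : i + 1 + 2 ≤ n
      · have : i + 2 ≤ n := by omega
        simp_all [width, Piece.width]
      · by_cases hi' : i + 2 ≤ n <;> simp_all [width, Piece.width])
  exact h1.trans ((h2.ctx [] [death (i + 1)]).trans (h3.ctx [birth (i + 2)] []))

theorem eqv_rot_neg (i : ℕ) : Eqv [neg i] [birth (i + 2), pos (i + 1), death i] := by
  have h1 : Eqv [neg i] [neg i, birth (i + 2), death (i + 1)] :=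
    eqv_ins [neg i] [] [birth (i + 2), death (i + 1)] (.zigzag₂ (i + 1)) (by
      intro n m h
      by_cases hi : i + 2 ≤ n
      · have : i + 1 ≤ n := by omega
        simp_all [width, Piece.width]
      · simp_all [width, Piece.width])
  have h2 : Eqv [neg i, birth (i + 2)] [birth (i + 2), neg i] :=
    Eqv.fwd (by simpa [Piece.moved, Piece.index, Piece.ins, Piece.outs] using
      LocalMove.exchange (neg i) (birth (i + 2)) (by simp [Piece.index, Piece.ins])) (by
      intro n m h
      by_cases hi : i + 2 ≤ n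
      · have : i ≤ n := by omega
        simp_all [width, Piece.width]
        omega
      · simp_all [width, Piece.width])
  have h3 : Eqv [neg i, death (i + 1)] [pos (i + 1), death i] :=
    Eqv.bwd (.slideDeath₁ i) (by
      intro n m h
      by_cases hi : i + 1 + 2 ≤ n
      · have : i + 2 ≤ n := by omega
        simp_all [width, Piece.width]
      · by_cases hi' : i + 2 ≤ n <;> simp_all [width, Piece.width])
  exact h1.trans ((h2.ctx [] [death (i + 1)]).trans (h3.ctx [birth (i + 2)] []))

/-! ### Labels of the replacements -/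

/-- the labels after a piece (the left label at a maximum is `u`) -/
def after (u : ℤ) : Piece → (ℕ → ℤ) → ℕ → ℤ
  | .birth i, g => fun j => if j < i then g j else if j = i then u else if j = i + 1 then -u
      else g (j - 2)
  | .death i, g => fun j => if j < i then g j else g (j + 2)
  | .pos i, g => fun j => if j = i then g (i + 1) + 1 else if j = i + 1 then g i - 1 else g j
  | .neg i, g => fun j => if j = i then g (i + 1) - 1 else if j = i + 1 then g i + 1 else g j

theorem compat_pos (u : ℤ) (i : ℕ) (g : ℕ → ℤ) : Compat (pos i) g (after u (pos i) g) :=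
  ⟨fun j h h' => by simp [after, h, h'], by simp [after], by simp [after]⟩

theorem compat_neg (u : ℤ) (i : ℕ) (g : ℕ → ℤ) : Compat (neg i) g (after u (neg i) g) :=
  ⟨fun j h h' => by simp [after, h, h'], by simp [after], by simp [after]⟩

theorem compat_birth (u : ℤ) (i : ℕ) (g : ℕ → ℤ) : Compat (birth i) g (after u (birth i) g) :=
  ⟨fun j h => by simp [after, h], by simp [after], fun j h => by
    simp [after, show ¬ j + 2 < i by omega, show ¬ j + 2 = i by omega,
      show ¬ j + 1 = i by omega]⟩

theorem compat_death (u : ℤ) (i : ℕ) (g : ℕ → ℤ) (h : g (i + 1) = - g i) :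
    Compat (death i) g (after u (death i) g) :=
  ⟨fun j h => by simp [after, h], h, fun j h => by simp [after, show ¬ j < i by omega]⟩

/-- `g'` has the values `a`, `b` at `i`, `i + 1` and agrees with `g` elsewhere -/
def Agree (i : ℕ) (g g' : ℕ → ℤ) (a b : ℤ) : Prop :=
  (∀ j, j ≠ i → j ≠ i + 1 → g' j = g j) ∧ g' i = a ∧ g' (i + 1) = b

theorem lab_pos {i : ℕ} {g g' : ℕ → ℤ} {w : Word} (hb : Bd g)
    (h : Agree i g g' (g (i + 1) + 1) (g i - 1)) (hl : Lab g' w) : Lab g (pos i :: w) :=
  ⟨hb, g', h, hl⟩

theorem lab_neg {i : ℕ} {g g' : ℕ → ℤ} {w : Word} (hb : Bd g)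
    (h : Agree i g g' (g (i + 1) - 1) (g i + 1)) (hl : Lab g' w) : Lab g (neg i :: w) :=
  ⟨hb, g', h, hl⟩

def put (i : ℕ) (g : ℕ → ℤ) (a b : ℤ) : ℕ → ℤ :=
  fun j => if j = i then a else if j = i + 1 then b else g j

@[simp] theorem put_l (i : ℕ) (g : ℕ → ℤ) (a b : ℤ) : put i g a b i = a := by simp [put]
@[simp] theorem put_r (i : ℕ) (g : ℕ → ℤ) (a b : ℤ) : put i g a b (i + 1) = b := by simp [put]

theorem put_put (i : ℕ) (g : ℕ → ℤ) (a b c d : ℤ) : put i (put i g a b) c d = put i g c d := by
  funext j; unfold put; split_ifs <;> rfl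

theorem agree_put (i : ℕ) (g : ℕ → ℤ) (a b : ℤ) : Agree i g (put i g a b) a b :=
  ⟨fun j h h' => by simp [put, h, h'], by simp, by simp⟩

theorem Agree.eq {i : ℕ} {g g' : ℕ → ℤ} {a b : ℤ} (h : Agree i g g' a b) : g' = put i g a b := by
  funext j
  unfold put
  split_ifs with h1 h2
  · rw [h1]; exact h.2.1
  · rw [h2]; exact h.2.2
  · exact h.1 j h1 h2

theorem bd_put {i : ℕ} {g : ℕ → ℤ} {a b : ℤ} (hg : Bd g) (ha : -1 ≤ a ∧ a ≤ 1)
    (hb : -1 ≤ b ∧ b ≤ 1) : Bd (put i g a b) := by
  intro j; unfold put; split_ifs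
  · exact ha
  · exact hb
  · exact hg j

theorem lab_pos' {i : ℕ} {g : ℕ → ℤ} {w : Word} {a b : ℤ} (hg : Bd g) (ha : -1 ≤ a ∧ a ≤ 1)
    (hb : -1 ≤ b ∧ b ≤ 1) (hl : Lab (put i g (b + 1) (a - 1)) w) :
    Lab (put i g a b) (pos i :: w) :=
  lab_pos (bd_put hg ha hb) (by
    have := agree_put i (put i g a b) (b + 1) (a - 1)
    rw [put_put] at this
    simpa using this) hl

theorem lab_neg' {i : ℕ} {g : ℕ → ℤ} {w : Word} {a b : ℤ} (hg : Bd g) (ha : -1 ≤ a ∧ a ≤ 1)
    (hb : -1 ≤ b ∧ b ≤ 1) (hl : Lab (put i g (b - 1) (a + 1)) w) :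
    Lab (put i g a b) (neg i :: w) :=
  lab_neg (bd_put hg ha hb) (by
    have := agree_put i (put i g a b) (b - 1) (a + 1)
    rw [put_put] at this
    simpa using this) hl

/-- the rotated crossing: reduction to the middle part -/
theorem lab_rot {i : ℕ} {g : ℕ → ℤ} {W w : Word} {a b c d : ℤ} (hg : Bd g) (ha : -1 ≤ a ∧ a ≤ 1)
    (hb : -1 ≤ b ∧ b ≤ 1) (hc : -1 ≤ c ∧ c ≤ 1) (hd : -1 ≤ d ∧ d ≤ 1)
    (hW : ∀ (G : ℕ → ℤ) (v : Word), Bd G → Lab (put (i + 1) G (-a) c) v →
      Lab (put (i + 1) G b (-d)) (W ++ v))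
    (hl : Lab (put i g c d) w) :
    Lab (put i g a b) (birth (i + 2) :: (W ++ death i :: w)) := by
  have hb0 := bd_put (i := i) hg ha hb
  have hG : Bd (after (-d) (birth (i + 2)) (put i g a b)) := by
    intro j
    simp only [after]
    split_ifs
    · exact hb0 j
    · omega
    · omega
    · exact hb0 _
  refine ⟨hb0, _, compat_birth (-d) (i + 2) _, ?_⟩
  set G := after (-d) (birth (i + 2)) (put i g a b) with hGd
  have e1 : G = put (i + 1) G b (-d) := by
    apply Agree.eq
    refine ⟨fun _ _ _ => rfl, ?_, ?_⟩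
    · simp [hGd, after]
    · simp [hGd, after]
  rw [e1]
  apply hW G _ hG
  refine ⟨bd_put hG (by omega) hc, _, compat_death 0 i _ ?_, ?_⟩
  · have : put (i + 1) G (-a) c i = a := by
      simp [put, hGd, after, show ¬ i = i + 1 + 1 by omega]
    rw [this]; simp
  · have : after 0 (death i) (put (i + 1) G (-a) c) = put i g c d := by
      funext j
      simp only [after, put, hGd]
      split_ifs <;> first | rfl | omega
    rw [this]; exact hl

/-- base labels of an orientation -/
def base (d : ℕ → Bool) : ℕ → ℤ :=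
  fun j => if d j then (if j % 2 = 0 then 0 else 1) else (if j % 2 = 0 then -1 else 0)

theorem bd_base (d : ℕ → Bool) : Bd (base d) := by
  intro j; unfold base; split_ifs <;> omega

theorem base_cross {i : ℕ} {d d' : ℕ → Bool} (h : ∀ j, d' j = d (swapAt i j)) :
    base d' = put i (base d) (base d' i) (base d' (i + 1)) := by
  apply Agree.eq
  refine ⟨fun j h1 h2 => ?_, rfl, rfl⟩
  simp [base, h j, swapAt, h1, h2]

theorem base_self (i : ℕ) (d : ℕ → Bool) : base d = put i (base d) (base d i) (base d (i + 1)) :=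
  Agree.eq ⟨fun _ _ _ => rfl, rfl, rfl⟩

theorem repl_piece (p : Piece) (d d' : ℕ → Bool) (h : OCompat p d d') :
    ∃ r : Word, Eqv [p] r ∧ ∀ w, Lab (base d') w → Lab (base d) (r ++ w) := by
  have B := bd_base d
  cases p with
  | birth i =>
    obtain ⟨h1, h2, h3⟩ := h
    refine ⟨[birth i], Eqv.refl _, fun w hw => ⟨B, base d', ⟨?_, ?_, ?_⟩, hw⟩⟩
    · intro j hj; simp [base, h1 j hj]
    · simp only [base, h2]
      cases d' i <;> simp <;> split_ifs <;> omega
    · intro j hj; simp [base, h3 j hj]
  | death i =>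
    obtain ⟨h1, h2, h3⟩ := h
    refine ⟨[death i], Eqv.refl _, fun w hw => ⟨B, base d', ⟨?_, ?_, ?_⟩, hw⟩⟩
    · intro j hj; simp [base, h1 j hj]
    · simp only [base, h2]
      cases d i <;> simp <;> split_ifs <;> omega
    · intro j hj; simp [base, h3 j hj]
  | pos i =>
    have e' := base_cross h
    have e := base_self i d
    have hi : d' i = d (i + 1) := by simpa [swapAt] using h i
    have hi' : d' (i + 1) = d i := by simpa [swapAt] using h (i + 1)
    by_cases hpar : i % 2 = 0
    · have hp1 : ¬ (i + 1) % 2 = 0 := by omega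
      cases hx : d i <;> cases hy : d (i + 1) <;>
        simp only [base, hi, hi', hx, hy, hpar, hp1, if_true, if_false, Bool.false_eq_true] at e e'
      · refine ⟨birth (i + 2) :: ([neg (i + 1), neg (i + 1), pos (i + 1)] ++ [death i]),
          (eqv_rot_pos i).trans ((eqv_nnp (i + 1)).ctx [birth (i + 2)] [death i]), fun w hw => ?_⟩
        rw [e]; rw [e'] at hw
        refine lab_rot (W := [neg (i + 1), neg (i + 1), pos (i + 1)]) B (by omega) (by omega)
          (by omega) (by omega) (fun G v hG hv => ?_) hw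
        exact lab_neg' hG (by omega) (by omega) (lab_neg' hG (by omega) (by omega)
          (lab_pos' hG (by omega) (by omega) hv))
      · refine ⟨_, eqv_npp i, fun w hw => ?_⟩
        rw [e]; rw [e'] at hw
        exact lab_neg' B (by omega) (by omega) (lab_pos' B (by omega) (by omega)
          (lab_pos' B (by omega) (by omega) hw))
      · refine ⟨_, eqv_ppn i, fun w hw => ?_⟩
        rw [e]; rw [e'] at hw
        exact lab_pos' B (by omega) (by omega) (lab_pos' B (by omega) (by omega)
          (lab_neg' B (by omega) (by omega) hw))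
      · refine ⟨birth (i + 2) :: ([pos (i + 1), neg (i + 1), neg (i + 1)] ++ [death i]),
          (eqv_rot_pos i).trans ((eqv_pnn (i + 1)).ctx [birth (i + 2)] [death i]), fun w hw => ?_⟩
        rw [e]; rw [e'] at hw
        refine lab_rot (W := [pos (i + 1), neg (i + 1), neg (i + 1)]) B (by omega) (by omega)
          (by omega) (by omega) (fun G v hG hv => ?_) hw
        exact lab_pos' hG (by omega) (by omega) (lab_neg' hG (by omega) (by omega)
          (lab_neg' hG (by omega) (by omega) hv))
    · have hp1 : (i + 1) % 2 = 0 := by omega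
      refine ⟨[pos i], Eqv.refl _, fun w hw => ?_⟩
      cases hx : d i <;> cases hy : d (i + 1) <;>
        simp only [base, hi, hi', hx, hy, hpar, hp1, if_true, if_false, Bool.false_eq_true]
          at e e' <;>
        (rw [e]; rw [e'] at hw; exact lab_pos' B (by omega) (by omega) hw)
  | neg i =>
    have e' := base_cross h
    have e := base_self i d
    have hi : d' i = d (i + 1) := by simpa [swapAt] using h i
    have hi' : d' (i + 1) = d i := by simpa [swapAt] using h (i + 1)
    by_cases hpar : i % 2 = 0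
    · have hp1 : ¬ (i + 1) % 2 = 0 := by omega
      refine ⟨[neg i], Eqv.refl _, fun w hw => ?_⟩
      cases hx : d i <;> cases hy : d (i + 1) <;>
        simp only [base, hi, hi', hx, hy, hpar, hp1, if_true, if_false, Bool.false_eq_true]
          at e e' <;>
        (rw [e]; rw [e'] at hw; exact lab_neg' B (by omega) (by omega) hw)
    · have hp1 : (i + 1) % 2 = 0 := by omega
      cases hx : d i <;> cases hy : d (i + 1) <;>
        simp only [base, hi, hi', hx, hy, hpar, hp1, if_true, if_false, Bool.false_eq_true] at e e'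
      · refine ⟨birth (i + 2) :: ([neg (i + 1), pos (i + 1), pos (i + 1)] ++ [death i]),
          (eqv_rot_neg i).trans ((eqv_npp (i + 1)).ctx [birth (i + 2)] [death i]), fun w hw => ?_⟩
        rw [e]; rw [e'] at hw
        refine lab_rot (W := [neg (i + 1), pos (i + 1), pos (i + 1)]) B (by omega) (by omega)
          (by omega) (by omega) (fun G v hG hv => ?_) hw
        exact lab_neg' hG (by omega) (by omega) (lab_pos' hG (by omega) (by omega)
          (lab_pos' hG (by omega) (by omega) hv))
      · refine ⟨_, eqv_nnp i, fun w hw => ?_⟩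
        rw [e]; rw [e'] at hw
        exact lab_neg' B (by omega) (by omega) (lab_neg' B (by omega) (by omega)
          (lab_pos' B (by omega) (by omega) hw))
      · refine ⟨_, eqv_pnn i, fun w hw => ?_⟩
        rw [e]; rw [e'] at hw
        exact lab_pos' B (by omega) (by omega) (lab_neg' B (by omega) (by omega)
          (lab_neg' B (by omega) (by omega) hw))
      · refine ⟨birth (i + 2) :: ([pos (i + 1), pos (i + 1), neg (i + 1)] ++ [death i]),
          (eqv_rot_neg i).trans ((eqv_ppn (i + 1)).ctx [birth (i + 2)] [death i]), fun w hw => ?_⟩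
        rw [e]; rw [e'] at hw
        refine lab_rot (W := [pos (i + 1), pos (i + 1), neg (i + 1)]) B (by omega) (by omega)
          (by omega) (by omega) (fun G v hG hv => ?_) hw
        exact lab_pos' hG (by omega) (by omega) (lab_pos' hG (by omega) (by omega)
          (lab_neg' hG (by omega) (by omega) hv))

theorem repl_word : ∀ (w : Word) (d : ℕ → Bool), Ori d w → ∃ r : Word, Eqv w r ∧ Lab (base d) r
  | [], d, _ => ⟨[], Eqv.refl _, bd_base d⟩
  | p :: w, d, ⟨d', hc, ho⟩ => by
    obtain ⟨r', he', hl'⟩ := repl_word w d' ho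
    obtain ⟨r, he, hl⟩ := repl_piece p d d' hc
    refine ⟨r ++ r', ?_, hl r' hl'⟩
    have h1 : Eqv (p :: w) (r ++ w) := by simpa using he.ctx [] w
    have h2 : Eqv (r ++ w) (r ++ r') := by simpa using he'.ctx r []
    exact h1.trans h2

theorem main (D : Word) (hD : Closed D) : ∃ E : Word, Closed E ∧ Isotopic D E ∧
    ∀ (s : State) (a b : ℕ), runWeight E s a - runWeight E s b ≤ 2 := by
  obtain ⟨d, hd⟩ := exists_ori D
  obtain ⟨r, he, hl⟩ := repl_word D d hd
  have := he [] [] (by simpa using hD)
  simp only [List.nil_append, List.append_nil] at this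
  exact ⟨r, this.1, this.2, hl.span⟩

end Pool.Agent.H272Z.Warp
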