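import Pool.Agent.H272Z.Warp.Repl

set_option autoImplicit false

namespace Pool.Agent.H272Z.Warp

open Pool.Agent.Helper907.AA
open Pool.Agent.Helper907.AA.Piece (birth death pos neg)

theorem width_take_succ (w : Word) (k : ℕ) (p : Piece) (hp : w[k]? = some p) :
    width (w.take (k + 1)) 0 = (width (w.take k) 0).bind p.width := by
  rw [List.take_add_one, hp, width_append]
  congr 1
  funext n
  simp only [Option.toList_some, width]
  cases p.width n <;> simp

theorem width_take_some {w : Word} (hw : Closed w) (k : ℕ) : ∃ n, width (w.take k) 0 = some n := by
  unfold Closed at hw
  rw [← List.take_append_drop k w, width_append] at hw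
  cases h : width (w.take k) 0 with
  | none => simp [h] at hw
  | some n => exact ⟨n, rfl⟩

/-- A traveller on a strand of a closed diagram always has a next piece, and it stays on the
diagram. -/
theorem onDiagram_step {w : Word} (hw : Closed w) {s : State} (hs : OnDiagram w s) :
    (nextPiece w s).isSome ∧ OnDiagram w (step w s) := by
  obtain ⟨k, j, d⟩ := s
  obtain ⟨hk, n, hn, hj⟩ := hs
  simp only at hk hn hj
  cases d with
  | true =>
    have hlt : k < w.length := by
      rcases hk.lt_or_eq with h | h
      · exact h
      · subst h
        rw [List.take_length] at hn
        unfold Closed at hw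
        rw [hw] at hn
        simp at hn
        omega
    have hp : w[k]? = some w[k] := List.getElem?_eq_getElem hlt
    generalize w[k] = p at hp
    have hnp : nextPiece w ⟨k, j, true⟩ = some p := by simp [nextPiece, hp]
    obtain ⟨m, hm⟩ := width_take_some hw (k + 1)
    have hm' := hm
    rw [width_take_succ w k p hp, hn] at hm'
    refine ⟨by simp [hnp], ?_⟩
    unfold step
    rw [hnp]
    cases p <;> simp only [Option.bind_some, Piece.width] at hm' <;> split_ifs at hm' <;>
      simp only [Option.some.injEq] at hm' <;>
      simp only [passDown, swapAt, if_true] <;> split_ifs <;>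
      first
        | exact ⟨by simp; omega, m, hm, by simp; omega⟩
        | exact ⟨by simp; omega, n, hn, by simp; omega⟩
        | (exfalso; simp_all)
  | false =>
    cases k with
    | zero =>
      simp [width] at hn
      omega
    | succ k =>
      have hlt : k < w.length := by omega
      have hp : w[k]? = some w[k] := List.getElem?_eq_getElem hlt
      generalize w[k] = p at hp
      have hnp : nextPiece w ⟨k + 1, j, false⟩ = some p := by simp [nextPiece, hp]
      obtain ⟨m, hm⟩ := width_take_some hw k
      have hn' := hn
      rw [width_take_succ w k p hp, hm] at hn'
      refine ⟨by simp [hnp], ?_⟩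
      unfold step
      rw [hnp]
      cases p <;> simp only [Option.bind_some, Piece.width] at hn' <;> split_ifs at hn' <;>
        simp only [Option.some.injEq] at hn' <;>
        simp only [passUp, swapAt, if_true, Bool.false_eq_true, if_false] <;> split_ifs <;>
        first
          | exact ⟨by simp; omega, m, by simpa using hm, by simp; omega⟩
          | exact ⟨by simp; omega, n, hn, by simp; omega⟩
          | (exfalso; simp_all)

/-- In the standard diagram of the trefoil the running weights alternate. -/
theorem trefoil_weights :
    (List.range 13).map (runWeight [birth 0, birth 2, pos 1, pos 1, pos 1, death 2, death 0]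
      ⟨2, 1, true⟩) = [0, -1, 0, -1, -1, -1, -1, -1, -1, 0, -1, 0, 0] := by decide

/-- A diagram in which the running weights spread over four values. -/
theorem descending_weights :
    (List.range 13).map (runWeight [birth 0, birth 2, pos 1, neg 1, pos 1, death 2, death 0]
      ⟨2, 1, true⟩) = [0, -1, -2, -3, -3, -3, -3, -3, -3, -2, -1, 0, 0] := by decide

end Pool.Agent.H272Z.Warp
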